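import Pool.Agent.Helper79.AL.St3

/-!
# Project AL (MP_2b6189_al), module CST: the centraliser of a stable set is stable
-/

set_option autoImplicit false

namespace Pool.Agent.Helper95.AL

open Matrix ComplexConjugate Pool.Agent.Helper94.YG
open Pool.Agent.Helper94.YF hiding StORB
open Pool.Agent.Helper89.OS Pool.Agent.Helper89.OC Pool.Agent.Helper79.AL

/-- module CST -/
theorem hCST : StCST := by
  classical
  intro hFCA I _ _ Z p b X E hLq hE c j hj i hi
  obtain ⟨u, -, hu⟩ := hLq.pi c
  obtain ⟨π, -, hπ, -, hd, hS, -⟩ := (hFCA I Z).perm u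
  have hpi : ∀ k, π k = X.pi c k := by
    intro k
    have h1 := hu k (X.pi c k)
    rw [hπ, if_pos rfl] at h1
    by_contra h
    rw [if_neg (fun h2 => h h2.symm)] at h1
    exact zero_ne_one h1
  have h1 := hj (π i) (by rw [hpi]; exact hE c i hi)
  unfold Sf at h1 ⊢
  rw [hS, hd, hpi] at h1
  rw [h1, ← hpi, hd]

end Pool.Agent.Helper95.AL
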